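import Mathlib
import Pool.Agent.H3.DblCover

set_option autoImplicit false

namespace Pool.Agent.Results.MP_7489fb_co.LowerBound

theorem result (n d m : ℕ) (hn : 2 ≤ n) (hd : 1 ≤ d) (B : Fin m → Fin d → Finset (Fin n))
    (hne : ∀ j i, (B j i).Nonempty) (hprop : ∀ j i, B j i ≠ Finset.univ)
    (hcov : ∀ x : Fin d → Fin n,
      (Finset.univ.filter fun j : Fin m => ∀ i, x i ∈ B j i).card = 2) :
    2 ^ (d + 1) ≤ (d + 1) * m :=
  Pool.Agent.H3.DblCover.bound n d m hd B hne hprop hcov (by omega)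

end Pool.Agent.Results.MP_7489fb_co.LowerBound
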